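import Mathlib
import Pool.Graph.R_pool_sql_team_22a80281.Lib.helper32_.Tau

set_option autoImplicit false

/-! `S₁(Γ,T)` in regular Lindelöf spaces (no second countability, no Hausdorff assumption). -/

namespace Pool.Agent.KS6_77.TauReg

open Filter Topology Set Pool.Agent.Lib.helper32.Tau

variable {Z : Type*} [TopologicalSpace Z]

/-- the property `SG` passes to closed subsets -/
theorem sg_mono {C D : Set Z} (hC : IsClosed C) (hCD : C ⊆ D) (h : SG D) : SG C := by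
  intro O h1 h2
  obtain ⟨k, hk⟩ := h (fun n k => O n k ∪ Cᶜ) (fun n k => (h1 n k).union hC.isOpen_compl)
    fun n x _ => by
      by_cases hxC : x ∈ C
      · exact (h2 n x hxC).mono fun _ => Or.inl
      · exact .of_forall fun _ => Or.inr hxC
  refine ⟨k, fun x hx => (hk x (hCD hx)).mono fun n hn => ?_⟩
  exact hn.resolve_right (not_not.2 hx)

theorem sg_iUnion₂ {C : ℕ → ℕ → Set Z} (h : ∀ i j, SG (C i j)) : SG (⋃ i, ⋃ j, C i j) := by
  have h1 := sg_union (C := fun i : ℕ => C i.unpair.1 i.unpair.2) fun i => h _ _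
  have h2 : (⋃ i : ℕ, C i.unpair.1 i.unpair.2) = ⋃ i, ⋃ j, C i j := by
    ext x
    simp only [mem_iUnion]
    constructor
    · rintro ⟨i, hi⟩
      exact ⟨_, _, hi⟩
    · rintro ⟨i, j, hij⟩
      exact ⟨i.pair j, by simpa using hij⟩
  rwa [h2] at h1

theorem sg_of_regular [RegularSpace Z] [LindelofSpace Z] (h : S1 (Z := Z) Ga Ta) :
    SG (univ : Set Z) := by
  have hdisj : ∀ C D : Set Z, IsClosed C → IsClosed D → Disjoint C D → SG C ∨ SG D :=
    fun C D hC hD hd => by_contra fun h1 =>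
      two h hd (sg_bad hC fun h2 => h1 (Or.inl h2)) (sg_bad hD fun h2 => h1 (Or.inr h2))
  let B : Set Z := {x | ∀ C ∈ 𝓝 x, ¬ SG C}
  have hB : ∀ x ∈ B, ∀ y ∈ B, Inseparable x y := by
    intro x hx y hy
    by_contra hxy
    have hd := disjoint_nhds_nhds_iff_not_inseparable.2 hxy
    obtain ⟨s, hs, t, ht, hst⟩ := Filter.disjoint_iff.1 hd
    obtain ⟨s', hs', hs'c, hs's⟩ := exists_mem_nhds_isClosed_subset hs
    obtain ⟨t', ht', ht'c, ht't⟩ := exists_mem_nhds_isClosed_subset ht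
    exact (hdisj s' t' hs'c ht'c (hst.mono hs's ht't)).elim (hx _ hs') (hy _ ht')
  have hgood : ∀ x ∈ Bᶜ, ∃ C ∈ 𝓝 x, SG C := fun x hx => by simpa [B] using hx
  -- closed sets missing `B`
  have hclosed : ∀ K : Set Z, IsClosed K → Disjoint K B → SG K := by
    intro K hK hKB
    choose! f hf1 hf2 using hgood
    have hKL : IsLindelof K := hK.isLindelof
    obtain ⟨t, htc, htK, htU⟩ := hKL.elim_nhds_subcover f
      fun x hx => hf1 x (fun hxB => hKB.le_bot ⟨hx, hxB⟩)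
    rcases t.eq_empty_or_nonempty with rfl | hne
    · have : K = ∅ := by
        rw [← subset_empty_iff]
        exact htU.trans (by simp)
      subst this
      exact fun O _ _ => ⟨fun _ => 0, fun x hx => absurd hx (notMem_empty x)⟩
    · obtain ⟨e, he⟩ := htc.exists_eq_range hne
      have hU : SG (⋃ i, f (e i)) := sg_union fun i => hf2 _ fun hxB =>
        hKB.le_bot ⟨htK _ (he ▸ mem_range_self i), hxB⟩
      refine sg_mono hK (fun x hx => ?_) hU
      obtain ⟨y, hy, hxy⟩ := mem_iUnion₂.1 (htU hx)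
      obtain ⟨i, rfl⟩ := (he ▸ hy : y ∈ range e)
      exact mem_iUnion.2 ⟨i, hxy⟩
  rcases B.eq_empty_or_nonempty with hBe | ⟨p, hp⟩
  · exact hclosed univ isClosed_univ (by simp [hBe])
  intro O h1 h2
  choose K hK using fun n => eventually_atTop.1 (h2 n p trivial)
  have hC : ∀ n k, SG ((O n (K n + k))ᶜ) := fun n k =>
    hclosed _ (h1 _ _).isClosed_compl <| by
      rw [Set.disjoint_left]
      intro x hx hxB
      exact hx (((hB x hxB p hp).mem_open_iff (h1 _ _)).2 (hK n _ (Nat.le_add_right _ _)))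
  obtain ⟨k, hk⟩ := sg_iUnion₂ hC (fun n k => O n (K n + k)) (fun _ _ => h1 _ _)
    fun n x _ => (tendsto_atTop_mono (fun k => Nat.le_add_left k (K n)) tendsto_id).eventually
      (h2 n x trivial)
  refine ⟨fun n => K n + k n, fun x _ => ?_⟩
  by_cases hx : x ∈ ⋃ n, ⋃ k, (O n (K n + k))ᶜ
  · exact hk x hx
  · refine .of_forall fun n => ?_
    simp only [mem_iUnion, mem_compl_iff, not_exists, not_not] at hx
    exact hx n (k n)

theorem sg_hur' [LindelofSpace Z] (h : SG (univ : Set Z)) (𝓤 : ℕ → Set (Set Z))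
    (h1 : ∀ n, (∀ V ∈ 𝓤 n, IsOpen V) ∧ ⋃₀ 𝓤 n = univ) :
    ∃ F : ℕ → Finset (Set Z), (∀ n, (F n : Set (Set Z)) ⊆ 𝓤 n) ∧
      ∀ x, ∀ᶠ n in atTop, x ∈ ⋃₀ (F n : Set (Set Z)) := by
  have hT : ∀ n, ∃ T : Set (Set Z), T.Countable ∧ T ⊆ 𝓤 n ∧ ⋃₀ T = univ := by
    intro n
    obtain ⟨T, hT1, hT2⟩ := isLindelof_univ.elim_countable_subcover (fun V : 𝓤 n => V.1)
      (fun V => (h1 n).1 _ V.2) (by rw [← sUnion_eq_iUnion, (h1 n).2])
    refine ⟨Subtype.val '' T, hT1.image _, by rintro _ ⟨V, -, rfl⟩; exact V.2, ?_⟩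
    rw [eq_univ_iff_forall]
    intro x
    obtain ⟨V, hV, hxV⟩ := mem_iUnion₂.1 (hT2 (mem_univ x))
    exact ⟨V.1, ⟨V, hV, rfl⟩, hxV⟩
  choose T h2 h3 h4 using hT
  choose e he using fun n => countable_iff_exists_injOn.1 (h2 n)
  have h5 : ∀ n k, {W ∈ T n | e n W < k}.Finite := fun n k =>
    Finite.of_injOn (f := e n) (fun _ h => h.2) ((he n).mono fun _ h => h.1) (finite_lt_nat k)
  obtain ⟨k, hk⟩ := h (fun n k => ⋃₀ {W ∈ T n | e n W < k})
    (fun n k => isOpen_sUnion fun W hW => (h1 n).1 W (h3 n hW.1)) fun n x _ => by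
      obtain ⟨W, h6, h7⟩ := (h4 n ▸ mem_univ x : x ∈ ⋃₀ T n)
      exact (eventually_gt_atTop (e n W)).mono fun k hk => ⟨W, ⟨h6, hk⟩, h7⟩
  exact ⟨fun n => (h5 n (k n)).toFinset, fun n W hW => h3 n ((h5 n _).mem_toFinset.1 hW).1,
    fun x => by simpa only [Finite.coe_toFinset] using hk x trivial⟩

end Pool.Agent.KS6_77.TauReg
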